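import Pool.Agent.Q223.TW.Glob

/-!
# The strong topological monodromy conjecture: reduction to trilinear polynomials

A *program* consists of a forest on the nodes `0, …, κ - 1` (`o m` is the parent of the node `m`, and
comes before `m`; `o m = none` for the roots), of a label `v m ∈ {1, …, n}` for every node and of a
coefficient `c m`. Its polynomial is

`F = ∑_m c_m z_m + ∑_m y_m (z_m - z_(o m) x_(v m))`  (with `z_none = 1`),

which is linear in each of the three groups of variables `x`, `y`, `z`, and has at most four monomials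
per node. The strong topological monodromy conjecture for all nonconstant `f ∈ ℂ[x_1, …, x_n]` is
equivalent to its case of the polynomials of programs whose minimal exponent is larger than any given
`N`. For the `f` with `f(0) = 0` and with coefficients in the additive group generated by a set `S`
(which contains `1`), the coefficients `c_m` can be taken from `S ∪ -S ∪ {0}`; so for `f ∈ ℤ[x]` it
suffices to treat such `F` with coefficients `0`, `1`, `-1`.

Method. Horner's scheme of `f` along a forest gives an automorphism of the polynomial ring which takes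
`f(x) + ∑ y_m z_m` to `F`, and there are such schemes for every large number `κ` of nodes. The addition
of a plane `y z` shifts the roots of `b_f(s) / (s + 1)` by `-1`. We compute the classes of the jets for
`f + y z`: if `Z(s)` is the global topological zeta function of `f` without the term for `I = ∅`, and
`a = χ(f ≠ 0)`, the one of `f + y z` is `Z(s + 1) + (1 - a - Z(s + 1)) / (s + 1) ^ 2`. So the poles are
shifted by `-1`, apart from `-1` and the integers `≥ 0`.
-/

set_option autoImplicit false

namespace Pool.Agent.Results.MP_504089_ag.TrilinearReduction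

open MvPolynomial Pool.Agent.Q223.MM Pool.Agent.Q223.TW Pool.Agent.TH192.MU
open Pool.Agent.W428.MOT (MK Lu)

/-- **Q1 is equivalent to its case of the trilinear polynomials of programs with minimal exponent
larger than `N`.**

`StrongG E ε f`: every pole `s₀ ≠ 0` of the global topological zeta function of `f`
(`IsTopZeta E ε (zetaM f Set.univ {c | c ≠ 0}) Z`) is a root of every `b` with
`b(s) f ^ s = P(s) f ^ (s + 1)`, `P(s)` in the Weyl algebra, polynomial in `s`; in particular it is a root
of `b_f`. (The poles of the topological zeta function are negative numbers.)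
`MinExp N F`: there is `c ≠ 0` such that `(s + 1) c(s)` satisfies such a functional equation for `F`, and
the roots of `c` have real part `< -N`; so the minimal exponent of `F` is larger than `N`.

`Forest o`: `o m = some m'` implies `m' < m`. `prog o v c` is the polynomial
`∑ c_m z_m + ∑ y_m (z_m - z_(o m) x_(v m))`, `z_none = 1`. `t ∈ coeffs S`: `t = 0` or `t ∈ S` or `-t ∈ S`.

First part: for every `f` and `N` there are programs with all large numbers of nodes `κ`, whose
polynomials have minimal exponent larger than `N`, such that for all realisations `(E, ε)` the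
conjecture for one of them implies the conjecture for `f`.
Second part: the equivalence. For `S = Set.univ` it is about all nonconstant polynomials. -/
theorem result (S : Set ℂ) (hS : (1 : ℂ) ∈ AddSubgroup.closure S) (N : ℕ) :
    (∀ (n : ℕ) (f : MvPolynomial (Fin n) ℂ), f.totalDegree ≠ 0 → (eval 0 f = 0 ∨ S = Set.univ) →
      (∀ d, coeff d f ∈ AddSubgroup.closure S) →
      ∃ κ₁ : ℕ, ∀ κ, κ₁ ≤ κ → ∃ (o : Fin κ → Option (Fin κ)) (v : Fin κ → Fin n)
        (c : Fin κ → ℂ), Forest o ∧ (∀ m, c m ∈ coeffs S) ∧ MinExp N (prog o v c) ∧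
        ∀ (R : Type) [CommRing R] [IsDomain R] (E : MK ℂ →+* R) (ε : R →+* ℂ),
          ε (E ((Lu ℂ : (MK ℂ)ˣ) : MK ℂ)) = 1 → E ((Lu ℂ : (MK ℂ)ˣ) : MK ℂ) ≠ 1 →
          StrongG E ε (prog o v c) → StrongG E ε f) ∧
    ∀ (R : Type) [CommRing R] [IsDomain R] (E : MK ℂ →+* R) (ε : R →+* ℂ),
      ε (E ((Lu ℂ : (MK ℂ)ˣ) : MK ℂ)) = 1 → E ((Lu ℂ : (MK ℂ)ˣ) : MK ℂ) ≠ 1 →
      ((∀ (n : ℕ) (f : MvPolynomial (Fin n) ℂ), f.totalDegree ≠ 0 →
          (eval 0 f = 0 ∨ S = Set.univ) → (∀ d, coeff d f ∈ AddSubgroup.closure S) →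
          StrongG E ε f) ↔
        ∀ (n κ : ℕ) (o : Fin κ → Option (Fin κ)) (v : Fin κ → Fin n) (c : Fin κ → ℂ), 0 < κ →
          Forest o → (∀ m, c m ∈ coeffs S) → MinExp N (prog o v c) →
          StrongG E ε (prog o v c)) := by
  have key : ∀ (n : ℕ) (f : MvPolynomial (Fin n) ℂ), f.totalDegree ≠ 0 →
      (eval 0 f = 0 ∨ S = Set.univ) → (∀ d, coeff d f ∈ AddSubgroup.closure S) →
      ∃ κ₁ : ℕ, ∀ κ, κ₁ ≤ κ → ∃ (o : Fin κ → Option (Fin κ)) (v : Fin κ → Fin n)
        (c : Fin κ → ℂ), Forest o ∧ (∀ m, c m ∈ coeffs S) ∧ MinExp N (prog o v c) ∧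
        ∀ (R : Type) [CommRing R] [IsDomain R] (E : MK ℂ →+* R) (ε : R →+* ℂ),
          ε (E ((Lu ℂ : (MK ℂ)ˣ) : MK ℂ)) = 1 → E ((Lu ℂ : (MK ℂ)ˣ) : MK ℂ) ≠ 1 →
          StrongG E ε (prog o v c) → StrongG E ε f := by
    intro n f hf h0 hfS
    obtain ⟨κ₁, h⟩ := reduceG S hS N n f hf h0 hfS
    refine ⟨κ₁, fun κ hκ => ?_⟩
    obtain ⟨o, v, c, ho, hc, hm, h2⟩ := h κ hκ
    exact ⟨o, v, c, ho, hc, hm, fun R _ _ E ε h1 hu => (h2 R E ε h1 hu).2⟩
  refine ⟨key, ?_⟩
  intro R _ _ E ε h1 hu
  constructor
  · intro h n κ o v c hκ _ hc _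
    exact h _ (prog o v c) (prog_deg o v c hκ) (Or.inl (prog_eval o v c))
      fun d => prog_coeff hS o v c hc d
  · intro h n f hf h0 hfS
    obtain ⟨κ₁, h2⟩ := key n f hf h0 hfS
    obtain ⟨o, v, c, ho, hc, hm, h3⟩ := h2 (κ₁ + 1) (Nat.le_succ κ₁)
    exact h3 R E ε h1 hu (h n (κ₁ + 1) o v c (Nat.succ_pos κ₁) ho hc hm)

end Pool.Agent.Results.MP_504089_ag.TrilinearReduction
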